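import Pool.Agent.U845.XM.Stm

/-!
# XM-CNT: squarefree numbers in classes modulo 15
-/

set_option autoImplicit false
set_option linter.all false

open Finset
open scoped Classical
open Pool.Agent.U845.XM (Nc)

namespace Pool.Agent.U705.XM

/-- a residue class in an interval -/
theorem cnt (q r X : ℕ) (hq : 0 < q) :
    |((((Icc 1 X).filter fun n => n ≡ r [MOD q]).card : ℕ) : ℝ) - (X : ℝ) / q| ≤ 1 := by
  have h := Nat.Ioc_filter_modEq_card 0 X hq r
  have e : (Icc 1 X).filter (fun n => n ≡ r [MOD q]) = (Ioc 0 X).filter (fun n => n ≡ r [MOD q]) := by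
    congr 1
  rw [e]
  have h2 : (((((Ioc 0 X).filter (fun n => n ≡ r [MOD q])).card : ℕ) : ℤ) : ℝ) =
      ((max (⌊(X - r : ℚ) / q⌋ - ⌊(0 - r : ℚ) / q⌋) 0 : ℤ) : ℝ) := by
    have h3 := h
    push_cast at h3 ⊢
    exact_mod_cast h3
  have e2 : ((((Ioc 0 X).filter (fun n => n ≡ r [MOD q])).card : ℕ) : ℝ) =
      (((((Ioc 0 X).filter (fun n => n ≡ r [MOD q])).card : ℕ) : ℤ) : ℝ) := by push_cast; rfl
  rw [e2, h2]
  have hq' : (0 : ℚ) < q := by exact_mod_cast hq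
  have a1 := Int.floor_le ((X - r : ℚ) / q)
  have a2 := Int.lt_floor_add_one ((X - r : ℚ) / q)
  have a3 := Int.floor_le ((0 - r : ℚ) / q)
  have a4 := Int.lt_floor_add_one ((0 - r : ℚ) / q)
  have a5 : (X - r : ℚ) / q - (0 - r : ℚ) / q = X / q := by ring
  have a6 : (0 : ℚ) ≤ X / q := by positivity
  set u : ℤ := ⌊(X - r : ℚ) / q⌋
  set v : ℤ := ⌊(0 - r : ℚ) / q⌋
  have b1 : (X / q : ℚ) - 1 ≤ ((max (u - v) 0 : ℤ) : ℚ) := by
    have : ((u - v : ℤ) : ℚ) ≤ ((max (u - v) 0 : ℤ) : ℚ) := by exact_mod_cast le_max_left _ _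
    push_cast at this ⊢
    linarith
  have b2 : ((max (u - v) 0 : ℤ) : ℚ) ≤ X / q + 1 := by
    rcases max_choice (u - v) 0 with h5 | h5
    · rw [h5]; push_cast; linarith
    · rw [h5]; push_cast; linarith
  have b3 : ((X / q : ℚ) : ℝ) = (X : ℝ) / q := by push_cast; rfl
  have c1 : (((X / q : ℚ) - 1 : ℚ) : ℝ) ≤ ((((max (u - v) 0 : ℤ) : ℚ)) : ℝ) := by exact_mod_cast b1
  have c2 : ((((max (u - v) 0 : ℤ) : ℚ)) : ℝ) ≤ ((X / q + 1 : ℚ) : ℝ) := by exact_mod_cast b2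
  have c3 : ((((max (u - v) 0 : ℤ) : ℚ)) : ℝ) = ((max (u - v) 0 : ℤ) : ℝ) := by push_cast; rfl
  rw [c3] at c1 c2
  push_cast at c1 c2 ⊢
  rw [abs_le]
  constructor <;> linarith

/-- multiples of `d ^ 2` in a class modulo `15` -/
noncomputable def N (d c X : ℕ) : ℝ := (((Icc 1 X).filter fun n => d ^ 2 ∣ n ∧ n % 15 = c % 15).card : ℕ)

theorem N_cop (d c X : ℕ) (hd : 0 < d) (h : Nat.Coprime d 15) : |N d c X - (X : ℝ) / (15 * (d : ℝ) ^ 2)| ≤ 1 := by
  have hco : (d ^ 2).Coprime 15 := Nat.Coprime.pow_left 2 h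
  obtain ⟨r, hr1, hr2⟩ := Nat.chineseRemainder hco 0 c
  have h1 := cnt (d ^ 2 * 15) r X (by positivity)
  have e : (Icc 1 X).filter (fun n => d ^ 2 ∣ n ∧ n % 15 = c % 15) =
      (Icc 1 X).filter (fun n => n ≡ r [MOD d ^ 2 * 15]) := by
    apply filter_congr
    intro n _
    rw [← Nat.modEq_and_modEq_iff_modEq_mul hco]
    constructor
    · rintro ⟨h2, h3⟩
      exact ⟨((Nat.modEq_zero_iff_dvd.2 h2).trans hr1.symm), (show n ≡ c [MOD 15] from h3).trans hr2.symm⟩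
    · rintro ⟨h2, h3⟩
      exact ⟨Nat.modEq_zero_iff_dvd.1 (h2.trans hr1), (h3.trans hr2 : n ≡ c [MOD 15])⟩
  unfold N
  rw [e]
  push_cast at h1
  rw [mul_comm (15 : ℝ)]
  exact h1

theorem N_not (d c X : ℕ) (h : ¬ Nat.Coprime d 15) (hc : Nat.Coprime c 15) : N d c X = 0 := by
  unfold N
  rw [Nat.cast_eq_zero, card_eq_zero, filter_eq_empty_iff]
  rintro n _ ⟨h1, h2⟩
  apply h
  have h3 : Nat.Coprime n 15 := by
    have h4 : n ≡ c [MOD 15] := h2
    exact h4.gcd_eq.trans hc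
  exact Nat.Coprime.coprime_dvd_left ((dvd_pow_self d (by norm_num)).trans h1) h3

/-- the Möbius function and squarefree numbers -/
theorem mob (n D : ℕ) (hn : 0 < n) (hD : n < D ^ 2) :
    ∑ d ∈ (Icc 1 D).filter (fun d => d ^ 2 ∣ n), (ArithmeticFunction.moebius d : ℤ) =
      if Squarefree n then 1 else 0 := by
  obtain ⟨a, b, hab, ha⟩ := Nat.sq_mul_squarefree n
  have hb : b ≠ 0 := by rintro rfl; simp at hab; omega
  have ha0 : a ≠ 0 := ha.ne_zero
  have e : (Icc 1 D).filter (fun d => d ^ 2 ∣ n) = b.divisors := by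
    ext d
    rw [mem_filter, mem_Icc, Nat.mem_divisors]
    constructor
    · rintro ⟨⟨h1, h2⟩, h3⟩
      refine ⟨?_, hb⟩
      rw [← Nat.factorization_le_iff_dvd (by omega) hb]
      intro p
      have h4 : (d ^ 2).factorization p ≤ n.factorization p :=
        (Nat.factorization_le_iff_dvd (by positivity) (by omega)).2 h3 p
      rw [← hab, Nat.factorization_mul (pow_ne_zero _ hb) ha0, Nat.factorization_pow,
        Nat.factorization_pow] at h4
      simp only [Finsupp.smul_apply, Finsupp.add_apply, smul_eq_mul] at h4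
      have h5 := ha.natFactorization_le_one p
      omega
    · rintro ⟨h1, -⟩
      have h2 : d ^ 2 ∣ n := by
        rw [← hab]
        exact (pow_dvd_pow_of_dvd h1 2).mul_right a
      have h3 : 0 < d := Nat.pos_of_dvd_of_pos h1 (Nat.pos_of_ne_zero hb)
      refine ⟨⟨h3, ?_⟩, h2⟩
      have h4 : d ^ 2 ≤ n := Nat.le_of_dvd hn h2
      by_contra h5
      push Not at h5
      nlinarith
  rw [e]
  have h6 : ∑ d ∈ b.divisors, (ArithmeticFunction.moebius d : ℤ) = if b = 1 then 1 else 0 := by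
    rw [← ArithmeticFunction.coe_mul_zeta_apply, ArithmeticFunction.moebius_mul_coe_zeta,
      ArithmeticFunction.one_apply]
  rw [h6]
  by_cases hb1 : b = 1
  · rw [if_pos hb1, if_pos]
    rw [← hab, hb1, one_pow, one_mul]
    exact ha
  · rw [if_neg hb1, if_neg]
    intro hs
    have h7 : b * b ∣ n := ⟨a, by rw [← hab]; ring⟩
    exact hb1 (Nat.isUnit_iff.1 (hs b h7))

/-- squarefree numbers in a class -/
noncomputable def S (c X : ℕ) : ℝ := (((Icc 1 X).filter fun n => Squarefree n ∧ n % 15 = c % 15).card : ℕ)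

theorem S_sum (c X D : ℕ) (hD : X < D ^ 2) :
    S c X = ∑ d ∈ Icc 1 D, ((ArithmeticFunction.moebius d : ℤ) : ℝ) * N d c X := by
  have h1 : S c X = ∑ n ∈ (Icc 1 X).filter (fun n => n % 15 = c % 15), (if Squarefree n then (1 : ℝ) else 0) := by
    rw [sum_ite, sum_const, sum_const_zero, add_zero, nsmul_eq_mul, mul_one, filter_filter]
    unfold S
    congr 2
    ext n
    simp only [mem_filter]
    tauto
  rw [h1]
  have h2 : ∀ n ∈ (Icc 1 X).filter (fun n => n % 15 = c % 15), (if Squarefree n then (1 : ℝ) else 0) =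
      ∑ d ∈ Icc 1 D, (if d ^ 2 ∣ n then ((ArithmeticFunction.moebius d : ℤ) : ℝ) else 0) := by
    intro n hn
    rw [mem_filter, mem_Icc] at hn
    have h3 := mob n D (by omega) (by omega)
    rw [← sum_filter]
    have h4 : ((∑ d ∈ (Icc 1 D).filter (fun d => d ^ 2 ∣ n), (ArithmeticFunction.moebius d : ℤ) : ℤ) : ℝ) =
        ((if Squarefree n then 1 else 0 : ℤ) : ℝ) := by rw [h3]
    push_cast at h4
    rw [h4]
  rw [sum_congr rfl h2, sum_comm]
  refine sum_congr rfl fun d _ => ?_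
  rw [← sum_filter, sum_const, nsmul_eq_mul, mul_comm]
  congr 1
  unfold N
  rw [filter_filter]
  congr 2
  ext n
  simp only [mem_filter]
  tauto

/-- the constant -/
noncomputable def kap (D : ℕ) : ℝ := ∑ d ∈ Icc 1 D,
  if Nat.Coprime d 15 then ((ArithmeticFunction.moebius d : ℤ) : ℝ) / (15 * (d : ℝ) ^ 2) else 0

theorem S_asym (c X D : ℕ) (hc : Nat.Coprime c 15) (hD : X < D ^ 2) : |S c X - kap D * X| ≤ D := by
  rw [S_sum c X D hD, kap, sum_mul, ← sum_sub_distrib]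
  refine (abs_sum_le_sum_abs _ _).trans ?_
  have h1 : ∑ d ∈ Icc 1 D, (1 : ℝ) = D := by simp
  rw [← h1]
  refine sum_le_sum fun d hd => ?_
  rw [mem_Icc] at hd
  have hm : |((ArithmeticFunction.moebius d : ℤ) : ℝ)| ≤ 1 := by
    exact_mod_cast ArithmeticFunction.abs_moebius_le_one (n := d)
  split_ifs with h
  · have h2 := N_cop d c X (by omega) h
    have e : ((ArithmeticFunction.moebius d : ℤ) : ℝ) * N d c X -
        ((ArithmeticFunction.moebius d : ℤ) : ℝ) / (15 * (d : ℝ) ^ 2) * X =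
        ((ArithmeticFunction.moebius d : ℤ) : ℝ) * (N d c X - X / (15 * (d : ℝ) ^ 2)) := by ring
    rw [e, abs_mul]
    calc _ ≤ 1 * 1 := mul_le_mul hm h2 (abs_nonneg _) zero_le_one
      _ = 1 := by norm_num
  · rw [N_not d c X h hc]
    norm_num

theorem sq_sum (D : ℕ) (hD : 2 ≤ D) : (∑ d ∈ Icc 2 D, 1 / (d : ℝ) ^ 2) ≤ 3 / 4 - 1 / (D : ℝ) := by
  induction D, hD using Nat.le_induction with
  | base => norm_num
  | succ n hn ih =>
    rw [← insert_Icc_right_eq_Icc_add_one (by omega), sum_insert (by simp)]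
    have hn' : (2 : ℝ) ≤ n := by exact_mod_cast hn
    have h1 : 1 / ((n : ℝ) + 1) ^ 2 ≤ 1 / n - 1 / (n + 1) := by
      rw [div_sub_div _ _ (by positivity) (by positivity), div_le_div_iff₀ (by positivity) (by positivity)]
      nlinarith
    push_cast
    linarith

theorem kap_bounds (D : ℕ) (hD : 2 ≤ D) : 1 / 60 ≤ kap D ∧ kap D ≤ 7 / 60 := by
  have e : Icc 1 D = insert 1 (Icc 2 D) := by
    ext x; simp only [mem_Icc, mem_insert]; omega
  have h0 : kap D = 1 / 15 + ∑ d ∈ Icc 2 D,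
      (if Nat.Coprime d 15 then ((ArithmeticFunction.moebius d : ℤ) : ℝ) / (15 * (d : ℝ) ^ 2) else 0) := by
    rw [kap, e, sum_insert (by simp)]
    norm_num
  have h1 : |∑ d ∈ Icc 2 D,
      (if Nat.Coprime d 15 then ((ArithmeticFunction.moebius d : ℤ) : ℝ) / (15 * (d : ℝ) ^ 2) else 0)| ≤
      ∑ d ∈ Icc 2 D, 1 / 15 * (1 / (d : ℝ) ^ 2) := by
    refine (abs_sum_le_sum_abs _ _).trans (sum_le_sum fun d hd => ?_)
    have hm : |((ArithmeticFunction.moebius d : ℤ) : ℝ)| ≤ 1 := by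
      exact_mod_cast ArithmeticFunction.abs_moebius_le_one (n := d)
    rw [mem_Icc] at hd
    have hd' : (0 : ℝ) < d := by exact_mod_cast (by omega : 0 < d)
    split_ifs
    · rw [abs_div, abs_of_pos (by positivity : (0 : ℝ) < 15 * (d : ℝ) ^ 2)]
      calc _ ≤ 1 / (15 * (d : ℝ) ^ 2) := by gcongr
        _ = _ := by field_simp
    · rw [abs_zero]; positivity
  rw [← mul_sum] at h1
  have h2 := sq_sum D hD
  have h3 : (0 : ℝ) ≤ 1 / (D : ℝ) := by positivity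
  rw [abs_le] at h1
  constructor <;> linarith [h1.1, h1.2]

/-- squarefree numbers with residues in `C` -/
noncomputable def T (C : Finset ℕ) (X : ℕ) : Finset ℕ := (Icc 1 X).filter fun m => Squarefree m ∧ m % 15 ∈ C

theorem T_card (C : Finset ℕ) (X : ℕ) (hC : ∀ c ∈ C, c < 15) : ((T C X).card : ℝ) = ∑ c ∈ C, S c X := by
  have h1 : (T C X).card = ∑ c ∈ C, ((T C X).filter (fun m => m % 15 = c)).card :=
    card_eq_sum_card_fiberwise fun m hm => (mem_filter.1 hm).2.2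
  rw [h1]
  push_cast
  refine sum_congr rfl fun c hc => ?_
  unfold S T
  rw [filter_filter, Nat.mod_eq_of_lt (hC c hc)]
  congr 2
  ext m
  simp only [mem_filter]
  constructor
  · rintro ⟨h2, ⟨h3, -⟩, h4⟩
    exact ⟨h2, h3, h4⟩
  · rintro ⟨h2, h3, h4⟩
    exact ⟨h2, ⟨h3, by rw [h4]; exact hc⟩, h4⟩

/-- the multiples by `g` -/
noncomputable def F (g : ℕ) (C : Finset ℕ) (X : ℕ) : Finset ℕ := (T C (X / g)).image (g * ·)

theorem F_card (g : ℕ) (C : Finset ℕ) (X : ℕ) (hg : 0 < g) (hC : ∀ c ∈ C, c < 15) :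
    ((F g C X).card : ℝ) = ∑ c ∈ C, S c (X / g) := by
  rw [F, card_image_of_injective _ (fun a b h => Nat.eq_of_mul_eq_mul_left hg h), T_card C _ hC]

theorem mem_F {g : ℕ} {C : Finset ℕ} {X n : ℕ} (hg : 0 < g) :
    n ∈ F g C X ↔ ∃ m, n = g * m ∧ 1 ≤ m ∧ n ≤ X ∧ Squarefree m ∧ m % 15 ∈ C := by
  unfold F T
  simp only [mem_image, mem_filter, mem_Icc]
  constructor
  · rintro ⟨m, ⟨⟨h1, h2⟩, h3, h4⟩, rfl⟩
    exact ⟨m, rfl, h1, by rw [Nat.le_div_iff_mul_le hg, mul_comm] at h2; exact h2, h3, h4⟩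
  · rintro ⟨m, rfl, h1, h2, h3, h4⟩
    exact ⟨m, ⟨⟨h1, by rw [Nat.le_div_iff_mul_le hg, mul_comm]; exact h2⟩, h3, h4⟩, rfl⟩

/-- the units modulo `15` -/
def U : Finset ℕ := {1, 2, 4, 7, 8, 11, 13, 14}

theorem three_ndvd {m : ℕ} (h : Squarefree (3 * m)) : m % 3 ≠ 0 := by
  intro h1
  have h2 : 3 * 3 ∣ 3 * m := Nat.mul_dvd_mul_left 3 (Nat.dvd_of_mod_eq_zero h1)
  have := Nat.isUnit_iff.1 (h 3 h2)
  omega

theorem five_ndvd {m : ℕ} (h : Squarefree (5 * m)) : m % 5 ≠ 0 := by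
  intro h1
  have h2 : 5 * 5 ∣ 5 * m := Nat.mul_dvd_mul_left 5 (Nat.dvd_of_mod_eq_zero h1)
  have := Nat.isUnit_iff.1 (h 5 h2)
  omega

theorem mem_U {m : ℕ} (h3 : m % 3 ≠ 0) (h5 : m % 5 ≠ 0) : m % 15 ∈ U := by
  unfold U
  simp only [mem_insert, mem_singleton]
  omega

theorem cover (X : ℕ) : (Icc 1 X).filter Squarefree ⊆ F 1 U X ∪ F 3 U X ∪ F 5 U X ∪ F 15 U X := by
  intro n hn
  rw [mem_filter, mem_Icc] at hn
  obtain ⟨⟨h1, h2⟩, h3⟩ := hn
  simp only [mem_union]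
  by_cases h4 : n % 3 = 0
  · obtain ⟨m, rfl⟩ : ∃ m, n = 3 * m := ⟨n / 3, by omega⟩
    have h5 := three_ndvd h3
    by_cases h6 : m % 5 = 0
    · obtain ⟨k, rfl⟩ : ∃ k, m = 5 * k := ⟨m / 5, by omega⟩
      have h7 : Squarefree (5 * k) := h3.squarefree_of_dvd (Dvd.intro_left 3 rfl)
      have h8 := five_ndvd h7
      refine Or.inr ((mem_F (by norm_num)).2 ⟨k, by ring, by omega, h2, h7.squarefree_of_dvd (Dvd.intro_left 5 rfl),
        mem_U (by omega) h8⟩)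
    · exact Or.inl (Or.inl (Or.inr ((mem_F (by norm_num)).2 ⟨m, rfl, by omega, h2,
        h3.squarefree_of_dvd (Dvd.intro_left 3 rfl), mem_U h5 h6⟩)))
  · by_cases h6 : n % 5 = 0
    · obtain ⟨k, rfl⟩ : ∃ k, n = 5 * k := ⟨n / 5, by omega⟩
      exact Or.inl (Or.inr ((mem_F (by norm_num)).2 ⟨k, rfl, by omega, h2,
        h3.squarefree_of_dvd (Dvd.intro_left 5 rfl), mem_U (by omega) (five_ndvd h3)⟩))
    · exact Or.inl (Or.inl (Or.inl ((mem_F (by norm_num)).2 ⟨n, by ring, h1, h2, h3, mem_U h4 h6⟩)))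

theorem sqf_mul {g m : ℕ} (hg : Squarefree g) (hm : Squarefree m) (h : Nat.Coprime g m) : Squarefree (g * m) :=
  (Nat.squarefree_mul h).2 ⟨hg, hm⟩

theorem cop3 {m : ℕ} (h : m % 3 ≠ 0) : Nat.Coprime 3 m :=
  (Nat.Prime.coprime_iff_not_dvd Nat.prime_three).2 fun h1 => h (Nat.mod_eq_zero_of_dvd h1)

theorem cop5 {m : ℕ} (h : m % 5 ≠ 0) : Nat.Coprime 5 m :=
  (Nat.Prime.coprime_iff_not_dvd Nat.prime_five).2 fun h1 => h (Nat.mod_eq_zero_of_dvd h1)

theorem U_ne {m : ℕ} (h : m % 15 ∈ U) : m % 3 ≠ 0 ∧ m % 5 ≠ 0 := by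
  unfold U at h
  simp only [mem_insert, mem_singleton] at h
  omega

theorem lower (X : ℕ) : (F 1 {2, 8} X).card + (F 3 {1, 4, 11, 14} X).card + (F 5 {1, 4, 7, 13} X).card +
    (F 15 U X).card ≤ ((Icc 1 X).filter Nc).card := by
  have d1 : Disjoint (F 1 {2, 8} X) (F 3 {1, 4, 11, 14} X) := by
    rw [Finset.disjoint_left]
    intro n h1 h2
    rw [mem_F (by norm_num)] at h1 h2
    obtain ⟨a, ha, -, -, -, ha2⟩ := h1
    obtain ⟨b, hb, -, -, -, hb2⟩ := h2
    simp only [mem_insert, mem_singleton] at ha2 hb2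
    omega
  have d2 : Disjoint (F 1 {2, 8} X ∪ F 3 {1, 4, 11, 14} X) (F 5 {1, 4, 7, 13} X) := by
    rw [Finset.disjoint_left]
    intro n h1 h2
    rw [mem_union, mem_F (by norm_num), mem_F (by norm_num)] at h1
    rw [mem_F (by norm_num)] at h2
    obtain ⟨b, hb, -, -, -, hb2⟩ := h2
    rcases h1 with ⟨a, ha, -, -, -, ha2⟩ | ⟨a, ha, -, -, -, ha2⟩
    · simp only [mem_insert, mem_singleton] at ha2 hb2
      omega
    · simp only [mem_insert, mem_singleton] at ha2 hb2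
      omega
  have d3 : Disjoint (F 1 {2, 8} X ∪ F 3 {1, 4, 11, 14} X ∪ F 5 {1, 4, 7, 13} X) (F 15 U X) := by
    rw [Finset.disjoint_left]
    intro n h1 h2
    rw [mem_union, mem_union, mem_F (by norm_num), mem_F (by norm_num), mem_F (by norm_num)] at h1
    rw [mem_F (by norm_num)] at h2
    obtain ⟨b, hb, -, -, -, hb2⟩ := h2
    rcases h1 with (⟨a, ha, -, -, -, ha2⟩ | ⟨a, ha, -, -, -, ha2⟩) | ⟨a, ha, -, -, -, ha2⟩
    all_goals
      simp only [mem_insert, mem_singleton] at ha2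
      omega
  rw [← card_union_of_disjoint d1, ← card_union_of_disjoint d2, ← card_union_of_disjoint d3]
  apply card_le_card
  intro n hn
  rw [mem_union, mem_union, mem_union, mem_F (by norm_num), mem_F (by norm_num), mem_F (by norm_num),
    mem_F (by norm_num)] at hn
  rw [mem_filter, mem_Icc]
  unfold Nc
  rcases hn with ((⟨m, rfl, h1, h2, h3, h4⟩ | ⟨m, rfl, h1, h2, h3, h4⟩) | ⟨m, rfl, h1, h2, h3, h4⟩) |
    ⟨m, rfl, h1, h2, h3, h4⟩
  · simp only [mem_insert, mem_singleton] at h4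
    refine ⟨⟨by omega, h2⟩, by rw [one_mul]; exact h3, by omega, by omega, by omega⟩
  · simp only [mem_insert, mem_singleton] at h4
    refine ⟨⟨by omega, h2⟩, sqf_mul Nat.prime_three.squarefree h3 (cop3 (by omega)), by omega, by omega, by omega⟩
  · simp only [mem_insert, mem_singleton] at h4
    refine ⟨⟨by omega, h2⟩, sqf_mul Nat.prime_five.squarefree h3 (cop5 (by omega)), by omega, by omega, by omega⟩
  · obtain ⟨h5, h6⟩ := U_ne h4
    have h7 : Squarefree 15 := by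
      rw [show 15 = 3 * 5 from rfl]
      exact sqf_mul Nat.prime_three.squarefree Nat.prime_five.squarefree (by norm_num)
    refine ⟨⟨by omega, h2⟩, sqf_mul h7 h3 ?_, by omega, by omega, by omega⟩
    rw [show 15 = 3 * 5 from rfl]
    exact Nat.Coprime.mul_left (cop3 h5) (cop5 h6)

theorem sum_upper (C : Finset ℕ) (X Y D : ℕ) (hC : ∀ c ∈ C, Nat.Coprime c 15) (hYX : Y ≤ X) (hD : X < D ^ 2) :
    ∑ c ∈ C, S c Y ≤ C.card * (kap D * Y + D) := by
  rw [← nsmul_eq_mul]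
  refine sum_le_card_nsmul _ _ _ fun c hc => ?_
  have := (abs_le.1 (S_asym c Y D (hC c hc) (by omega))).2
  linarith

theorem sum_lower (C : Finset ℕ) (X Y D : ℕ) (hC : ∀ c ∈ C, Nat.Coprime c 15) (hYX : Y ≤ X) (hD : X < D ^ 2) :
    C.card * (kap D * Y - D) ≤ ∑ c ∈ C, S c Y := by
  rw [← nsmul_eq_mul]
  refine card_nsmul_le_sum _ _ _ fun c hc => ?_
  have := (abs_le.1 (S_asym c Y D (hC c hc) (by omega))).1
  linarith

theorem divb (X g : ℕ) (hg : 0 < g) : (X : ℝ) / g - 1 ≤ ((X / g : ℕ) : ℝ) ∧ ((X / g : ℕ) : ℝ) ≤ (X : ℝ) / g := by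
  constructor
  · have h1 : X < g * (X / g) + g := by
      have := Nat.div_add_mod X g
      have := Nat.mod_lt X hg
      omega
    have h2 : (X : ℝ) < g * ((X / g : ℕ) : ℝ) + g := by exact_mod_cast h1
    have h3 : (0 : ℝ) < g := by exact_mod_cast hg
    rw [sub_le_iff_le_add, div_le_iff₀ h3]
    nlinarith
  · exact Nat.cast_div_le

theorem t_CNT : ∃ X₀ : ℕ, ∀ X : ℕ, X₀ ≤ X →
    0.35 * (((Icc 1 X).filter Squarefree).card : ℝ) ≤ (((Icc 1 X).filter Nc).card : ℝ) := by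
  refine ⟨10 ^ 10, fun X hX => ?_⟩
  set s := Nat.sqrt X with hs
  set D := s + 1 with hDdef
  have hs1 : s * s ≤ X := Nat.sqrt_le X
  have hD : X < D ^ 2 := by
    have := Nat.lt_succ_sqrt X
    rw [pow_two]
    exact this
  have hs2 : 10 ^ 5 ≤ s := by
    rw [hs, Nat.le_sqrt]
    omega
  obtain ⟨k1, k2⟩ := kap_bounds D (by omega)
  set κ := kap D with hκ
  have hU : ∀ c ∈ U, Nat.Coprime c 15 := by unfold U; decide
  have hU15 : ∀ c ∈ U, c < 15 := by unfold U; decide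
  have hUc : U.card = 8 := by unfold U; rfl
  obtain ⟨a1, a2⟩ := divb X 3 (by norm_num)
  obtain ⟨b1, b2⟩ := divb X 5 (by norm_num)
  obtain ⟨c1, c2⟩ := divb X 15 (by norm_num)
  push_cast at a1 a2 b1 b2 c1 c2
  have hXn : (0 : ℝ) ≤ X := by positivity
  -- the upper bound
  have u0 : (((Icc 1 X).filter Squarefree).card : ℝ) ≤
      ((F 1 U X).card : ℝ) + (F 3 U X).card + (F 5 U X).card + (F 15 U X).card := by
    have h1 := (card_le_card (cover X)).trans (card_union_le _ _)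
    have h2 := card_union_le (F 1 U X ∪ F 3 U X) (F 5 U X)
    have h3 := card_union_le (F 1 U X) (F 3 U X)
    have h4 : ((Icc 1 X).filter Squarefree).card ≤
      (F 1 U X).card + (F 3 U X).card + (F 5 U X).card + (F 15 U X).card := by omega
    exact_mod_cast h4
  rw [F_card 1 U X (by norm_num) hU15, F_card 3 U X (by norm_num) hU15, F_card 5 U X (by norm_num) hU15,
    F_card 15 U X (by norm_num) hU15] at u0
  have v1 := sum_upper U X (X / 1) D hU (Nat.div_le_self _ _) hD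
  have v3 := sum_upper U X (X / 3) D hU (Nat.div_le_self _ _) hD
  have v5 := sum_upper U X (X / 5) D hU (Nat.div_le_self _ _) hD
  have v15 := sum_upper U X (X / 15) D hU (Nat.div_le_self _ _) hD
  rw [hUc] at v1 v3 v5 v15
  rw [Nat.div_one] at u0 v1
  -- the lower bound
  have l0 := lower X
  have l1 : ((F 1 {2, 8} X).card : ℝ) + (F 3 {1, 4, 11, 14} X).card + (F 5 {1, 4, 7, 13} X).card +
    (F 15 U X).card ≤ (((Icc 1 X).filter Nc).card : ℝ) := by exact_mod_cast l0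
  rw [F_card 1 _ X (by norm_num) (by decide), F_card 3 _ X (by norm_num) (by decide),
    F_card 5 _ X (by norm_num) (by decide), F_card 15 U X (by norm_num) hU15] at l1
  have w1 := sum_lower {2, 8} X (X / 1) D (by decide) (Nat.div_le_self _ _) hD
  have w3 := sum_lower {1, 4, 11, 14} X (X / 3) D (by decide) (Nat.div_le_self _ _) hD
  have w5 := sum_lower {1, 4, 7, 13} X (X / 5) D (by decide) (Nat.div_le_self _ _) hD
  have w15 := sum_lower U X (X / 15) D hU (Nat.div_le_self _ _) hD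
  rw [hUc] at w15
  rw [show ({2, 8} : Finset ℕ).card = 2 from rfl] at w1
  rw [show ({1, 4, 11, 14} : Finset ℕ).card = 4 from rfl] at w3
  rw [show ({1, 4, 7, 13} : Finset ℕ).card = 4 from rfl] at w5
  rw [Nat.div_one] at l1 w1
  push_cast at v1 v3 v5 v15 w1 w3 w5 w15
  rw [← hκ] at v1 v3 v5 v15 w1 w3 w5 w15
  have hκ0 : 0 < κ := by linarith
  have m3 : κ * ((X / 3 : ℕ) : ℝ) ≤ κ * (X / 3) := mul_le_mul_of_nonneg_left a2 hκ0.le
  have m5 : κ * ((X / 5 : ℕ) : ℝ) ≤ κ * (X / 5) := mul_le_mul_of_nonneg_left b2 hκ0.le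
  have m15 : κ * ((X / 15 : ℕ) : ℝ) ≤ κ * (X / 15) := mul_le_mul_of_nonneg_left c2 hκ0.le
  have n3 : κ * (X / 3 - 1) ≤ κ * ((X / 3 : ℕ) : ℝ) := mul_le_mul_of_nonneg_left a1 hκ0.le
  have n5 : κ * (X / 5 - 1) ≤ κ * ((X / 5 : ℕ) : ℝ) := mul_le_mul_of_nonneg_left b1 hκ0.le
  have n15 : κ * (X / 15 - 1) ≤ κ * ((X / 15 : ℕ) : ℝ) := mul_le_mul_of_nonneg_left c1 hκ0.le
  have hDr : (D : ℝ) = s + 1 := by rw [hDdef]; push_cast; ring
  have hsr : (10 ^ 5 : ℝ) ≤ s := by exact_mod_cast hs2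
  have hXs : (s : ℝ) * s ≤ X := by exact_mod_cast hs1
  have hkX : (1 / 60 : ℝ) * X ≤ κ * X := mul_le_mul_of_nonneg_right k1 hXn
  have hX1 : (10 ^ 5 : ℝ) * s ≤ X := le_trans (mul_le_mul_of_nonneg_right hsr (by positivity)) hXs
  have e1 : κ * ((X : ℝ) / 3) = κ * X / 3 := by ring
  have e2 : κ * ((X : ℝ) / 5) = κ * X / 5 := by ring
  have e3 : κ * ((X : ℝ) / 15) = κ * X / 15 := by ring
  set Z := κ * (X : ℝ) with hZ
  have hfin : (0.35 : ℝ) * (8 * (Z + D) + 8 * (Z / 3 + D) + 8 * (Z / 5 + D) + 8 * (Z / 15 + D)) ≤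
      2 * (Z - D) + 4 * (Z / 3 - κ - D) + 4 * (Z / 5 - κ - D) + 8 * (Z / 15 - κ - D) := by
    rw [hDr]
    nlinarith
  have n3' : Z / 3 - κ ≤ κ * ((X / 3 : ℕ) : ℝ) := by rw [← e1]; linarith
  have n5' : Z / 5 - κ ≤ κ * ((X / 5 : ℕ) : ℝ) := by rw [← e2]; linarith
  have n15' : Z / 15 - κ ≤ κ * ((X / 15 : ℕ) : ℝ) := by rw [← e3]; linarith
  have U1 : (((Icc 1 X).filter Squarefree).card : ℝ) ≤
      8 * (Z + D) + 8 * (Z / 3 + D) + 8 * (Z / 5 + D) + 8 * (Z / 15 + D) := by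
    linarith
  have L1 : 2 * (Z - D) + 4 * (Z / 3 - κ - D) + 4 * (Z / 5 - κ - D) + 8 * (Z / 15 - κ - D) ≤
      (((Icc 1 X).filter Nc).card : ℝ) := by
    linarith
  calc _ ≤ (0.35 : ℝ) * (8 * (Z + D) + 8 * (Z / 3 + D) + 8 * (Z / 5 + D) + 8 * (Z / 15 + D)) :=
        mul_le_mul_of_nonneg_left U1 (by norm_num)
    _ ≤ _ := hfin.trans L1

end Pool.Agent.U705.XM
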